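import Mathlib
import Pool.Agent.Helper95.FL.Stmts2

set_option autoImplicit false

/-!
# P-1 and P-2: counting edges, choosing maps with few collisions
-/

namespace Pool.Agent.Helper61.FL

open Pool.Agent.Helper95.FL
open scoped Classical

theorem stEdgeCount : StEdgeCount := by
  intro X V _ 𝒞 d h s
  have h1 := Finset.card_eq_sum_card_image (𝒞.edge s) (Finset.univ : Finset X)
  rw [Finset.card_univ] at h1
  rw [h1, Finset.sum_const_nat (m := d)]
  intro b hb
  obtain ⟨x, -, rfl⟩ := Finset.mem_image.1 hb
  exact h s x

lemma pair_count {Ω E Z : Type} [Fintype Ω] (img : Ω → E → Z)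
    (h : ∀ e z, (Finset.univ.filter fun ω => img ω e = z).card ≤ 1) {N : ℕ} {c c' : Fin N}
    (hc : c ≠ c') (e e' : E) :
    (Finset.univ.filter fun F : Fin N → Ω => img (F c) e = img (F c') e').card *
      Fintype.card Ω ≤ Fintype.card (Fin N → Ω) := by
  rw [← Finset.card_univ (α := Ω), ← Finset.card_product, ← Finset.card_univ (α := Fin N → Ω)]
  apply Finset.card_le_card_of_injOn (fun p => Function.update p.1 c p.2)
  · intro p _
    exact Finset.mem_coe.2 (Finset.mem_univ _)
  · rintro ⟨F, ω⟩ hF ⟨F', ω'⟩ hF' heq
    have hF1 : img (F c) e = img (F c') e' := by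
      have := (Finset.mem_product.1 (Finset.mem_coe.1 hF)).1
      exact (Finset.mem_filter.1 this).2
    have hF2 : img (F' c) e = img (F' c') e' := by
      have := (Finset.mem_product.1 (Finset.mem_coe.1 hF')).1
      exact (Finset.mem_filter.1 this).2
    change Function.update F c ω = Function.update F' c ω' at heq
    have h1 : ω = ω' := by
      have := congrFun heq c
      simpa using this
    have h2 : ∀ x, x ≠ c → F x = F' x := by
      intro x hx
      have := congrFun heq x
      rwa [Function.update_of_ne hx, Function.update_of_ne hx] at this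
    have h3 : F c = F' c := by
      have h4 := Finset.card_le_one.1 (h e (img (F' c') e'))
      apply h4
      · rw [Finset.mem_filter]
        refine ⟨Finset.mem_univ _, ?_⟩
        rw [hF1, h2 c' (Ne.symm hc)]
      · rw [Finset.mem_filter]
        exact ⟨Finset.mem_univ _, hF2⟩
    have h5 : F = F' := by
      funext x
      by_cases hx : x = c
      · rw [hx, h3]
      · exact h2 x hx
    rw [h1, h5]

theorem stSeq : StSeq := by
  intro Ω E Z _ _ _ img h N
  let P : (Fin N → Ω) → (Fin N × E) × (Fin N × E) → Prop := fun F p =>
    p.1.1 ≠ p.2.1 ∧ img (F p.1.1) p.1.2 = img (F p.2.1) p.2.2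
  have hex : ∃ F ∈ (Finset.univ : Finset (Fin N → Ω)),
      (Finset.univ.filter fun p => P F p).card * Fintype.card Ω ≤
        N ^ 2 * Fintype.card E ^ 2 := by
    apply Finset.exists_le_of_sum_le Finset.univ_nonempty
    rw [← Finset.sum_mul]
    have h1 : ∑ F : Fin N → Ω, (Finset.univ.filter fun p => P F p).card =
        ∑ p : (Fin N × E) × (Fin N × E), (Finset.univ.filter fun F : Fin N → Ω => P F p).card := by
      simp only [Finset.card_filter]
      exact Finset.sum_comm
    have h2 : ∀ p : (Fin N × E) × (Fin N × E),
        (Finset.univ.filter fun F : Fin N → Ω => P F p).card * Fintype.card Ω ≤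
          Fintype.card (Fin N → Ω) := by
      intro p
      by_cases hp : p.1.1 ≠ p.2.1
      · refine le_trans (Nat.mul_le_mul_right _ (Finset.card_le_card ?_))
          (pair_count img h hp p.1.2 p.2.2)
        intro F hF
        rw [Finset.mem_filter] at hF ⊢
        exact ⟨hF.1, hF.2.2⟩
      · have h3 : (Finset.univ.filter fun F : Fin N → Ω => P F p) = ∅ := by
          apply Finset.filter_eq_empty_iff.2
          intro F _ hF
          exact hp hF.1
        rw [h3, Finset.card_empty, zero_mul]
        exact Nat.zero_le _
    rw [h1, Finset.sum_mul]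
    refine (Finset.sum_le_sum fun p _ => h2 p).trans (le_of_eq ?_)
    rw [Finset.sum_const, Finset.sum_const, Finset.card_univ, Finset.card_univ, smul_eq_mul,
      smul_eq_mul, Fintype.card_prod, Fintype.card_prod, Fintype.card_fin]
    ring
  obtain ⟨F, -, hF⟩ := hex
  exact ⟨F, hF⟩

end Pool.Agent.Helper61.FL
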